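import Mathlib

set_option autoImplicit false

namespace Pool.Agent.Results.MP_0aef5d_co.WheelCounterexample

open Finset Classical

/-- `G` is maximal `H`-free: it contains no copy of `H`, but adding any edge between two distinct
non-adjacent vertices creates one. -/
def MaximalFree {m n : ℕ} (H : SimpleGraph (Fin m)) (G : SimpleGraph (Fin n)) : Prop :=
  H.Free G ∧ ∀ u v : Fin n, u ≠ v → ¬ G.Adj u v → ¬ H.Free (G ⊔ SimpleGraph.edge u v)

/-- The VC-dimension of `G`: the VC-dimension of the family of all neighbourhoods. -/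
noncomputable def vc {n : ℕ} (G : SimpleGraph (Fin n)) : ℕ :=
  (univ.image fun v => G.neighborFinset v).vcDim

/-- `G` is a blowup of `F`: the fibres of `π` are the (nonempty) classes. -/
def IsBlowup {n k : ℕ} (G : SimpleGraph (Fin n)) (F : SimpleGraph (Fin k)) : Prop :=
  ∃ π : Fin n → Fin k, Function.Surjective π ∧ ∀ u v, G.Adj u v ↔ F.Adj (π u) (π v)

/-- The VC-dimension threshold of `H`. -/
noncomputable def deltaVC {m : ℕ} (H : SimpleGraph (Fin m)) : ℝ :=
  sInf {α : ℝ | 0 ≤ α ∧ ∃ C : ℕ, ∀ (n : ℕ) (G : SimpleGraph (Fin n)), MaximalFree H G →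
    α * n ≤ G.minDegree → vc G ≤ C}

/-- The blowup threshold of `H`. -/
noncomputable def deltaB {m : ℕ} (H : SimpleGraph (Fin m)) : ℝ :=
  sInf {α : ℝ | 0 ≤ α ∧ ∃ C : ℕ, ∀ (n : ℕ) (G : SimpleGraph (Fin n)), MaximalFree H G →
    α * n ≤ G.minDegree → ∃ k ≤ C, ∃ F : SimpleGraph (Fin k), IsBlowup G F}

/-- The complete tripartite graph `K_{1,2,2}` (the wheel with four spokes), with parts `{0}`,
`{1, 2}` and `{3, 4}`. -/
def K122 : SimpleGraph (Fin 5) := SimpleGraph.comap (![0, 1, 1, 2, 2] : Fin 5 → Fin 3) ⊤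

section basics

variable {n : ℕ} {G : SimpleGraph (Fin n)}

/-- A `K_{1,2,2}` from explicit vertices. -/
theorem wheel {h x z p q : Fin n} (hx : G.Adj h x) (hz : G.Adj h z) (hp : G.Adj h p)
    (hq : G.Adj h q) (xp : G.Adj x p) (xq : G.Adj x q) (zp : G.Adj z p) (zq : G.Adj z q)
    (hxz : x ≠ z) (hpq : p ≠ q) : ¬ K122.Free G := by
  intro hfree
  apply hfree
  refine ⟨⟨⟨![h, x, z, p, q], ?_⟩, ?_⟩⟩
  · intro a b hab
    simp only [K122, SimpleGraph.comap_adj, SimpleGraph.top_adj] at hab
    fin_cases a <;> fin_cases b <;> simp_all [SimpleGraph.adj_comm]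
  · intro a b hab
    have h1 := hx.ne
    have h2 := hz.ne
    have h3 := hp.ne
    have h4 := hq.ne
    have h5 := xp.ne
    have h6 := xq.ne
    have h7 := zp.ne
    have h8 := zq.ne
    fin_cases a <;> fin_cases b <;> simp_all [eq_comm]

/-- Among any three vertices of `K_{1,2,2}` some vertex is adjacent to both others. -/
theorem three (a b c : Fin 5) (hab : a ≠ b) (hac : a ≠ c) (hbc : b ≠ c) :
    (K122.Adj a b ∧ K122.Adj a c) ∨ (K122.Adj b a ∧ K122.Adj b c) ∨
      (K122.Adj c a ∧ K122.Adj c b) := by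
  simp only [K122, SimpleGraph.comap_adj, SimpleGraph.top_adj]
  revert a b c
  decide

theorem few (hfree : K122.Free G) (h : Fin n) (d : ℝ) (hd1 : 1 ≤ d) (Z : Finset (Fin n))
    (hZ : Z ⊆ G.neighborFinset h)
    (hd : ∀ z ∈ Z, d ≤ ((G.neighborFinset z ∩ G.neighborFinset h).card : ℝ)) :
    (Z.card : ℝ) * (d * (d - 1)) ≤ (n : ℝ) ^ 2 := by
  set T : Fin n → Finset (Fin n) := fun z => G.neighborFinset z ∩ G.neighborFinset h with hT
  have hdis : ∀ z ∈ Z, ∀ z' ∈ Z, z ≠ z' → Disjoint (T z).offDiag (T z').offDiag := by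
    intro z hz z' hz' hne
    rw [Finset.disjoint_left]
    rintro ⟨x, y⟩ h1 h2
    simp only [mem_offDiag, hT, mem_inter, SimpleGraph.mem_neighborFinset] at h1 h2
    have hz1 := hZ hz
    have hz2 := hZ hz'
    rw [SimpleGraph.mem_neighborFinset] at hz1 hz2
    exact wheel hz1 hz2 h1.1.2 h1.2.1.2 h1.1.1 h1.2.1.1 h2.1.1 h2.2.1.1 hne h1.2.2 hfree
  have h1 : ∑ z ∈ Z, (T z).offDiag.card = (Z.biUnion fun z => (T z).offDiag).card :=
    (Finset.card_biUnion hdis).symm
  have h2 : (Z.biUnion fun z => (T z).offDiag).card ≤ n * n := by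
    calc (Z.biUnion fun z => (T z).offDiag).card ≤ (univ : Finset (Fin n × Fin n)).card :=
          Finset.card_le_card (subset_univ _)
      _ = n * n := by simp
  have h3 : (Z.card : ℝ) * (d * (d - 1)) ≤ ∑ z ∈ Z, ((T z).offDiag.card : ℝ) := by
    rw [← nsmul_eq_mul, ← Finset.sum_const]
    apply Finset.sum_le_sum
    intro z hz
    have h4 := hd z hz
    rw [Finset.offDiag_card]
    have h5 : (T z).card ≤ (T z).card * (T z).card := Nat.le_mul_self _
    rw [Nat.cast_sub h5]
    push_cast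
    have h6 : d ≤ ((T z).card : ℝ) := h4
    nlinarith
  calc (Z.card : ℝ) * (d * (d - 1)) ≤ ∑ z ∈ Z, ((T z).offDiag.card : ℝ) := h3
    _ = ((∑ z ∈ Z, (T z).offDiag.card : ℕ) : ℝ) := by push_cast; rfl
    _ ≤ ((n * n : ℕ) : ℝ) := by rw [h1]; exact_mod_cast h2
    _ = (n : ℝ) ^ 2 := by push_cast; ring

/-- The vertices `z` of `N(h)` with at least `n / 100` neighbours in `N(h)`. -/
noncomputable def atyp (G : SimpleGraph (Fin n)) (h : Fin n) : Finset (Fin n) :=
  (G.neighborFinset h).filter fun z =>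
    (n : ℝ) / 100 ≤ ((G.neighborFinset z ∩ G.neighborFinset h).card : ℝ)

theorem atyp_card (hfree : K122.Free G) (hn : 1000000 ≤ n) (h : Fin n) :
    ((atyp G h).card : ℝ) ≤ 20000 := by
  have hn' : (1000000 : ℝ) ≤ n := by exact_mod_cast hn
  have h1 := few hfree h ((n : ℝ) / 100) (by linarith) (atyp G h) (filter_subset _ _)
    (fun z hz => (mem_filter.1 hz).2)
  by_contra hcon
  push Not at hcon
  have h2 : (n : ℝ) / 200 ≤ (n : ℝ) / 100 - 1 := by linarith
  have h3 : (n : ℝ) / 100 * ((n : ℝ) / 200) ≤ (n : ℝ) / 100 * ((n : ℝ) / 100 - 1) := by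
    apply mul_le_mul_of_nonneg_left h2; positivity
  have h4 : (20000 : ℝ) * ((n : ℝ) / 100 * ((n : ℝ) / 200)) = (n : ℝ) ^ 2 := by ring
  have h5 : (0 : ℝ) < (n : ℝ) / 100 * ((n : ℝ) / 100 - 1) := by
    apply mul_pos <;> linarith
  nlinarith

/-- Cardinality of the complement of a neighbourhood. -/
theorem card_compl_nbr {w : Fin n} {S : Finset (Fin n)} :
    ((S \ G.neighborFinset w).card : ℝ) = S.card - (G.neighborFinset w ∩ S).card := by
  have := Finset.card_sdiff_add_card_inter S (G.neighborFinset w)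
  rw [inter_comm] at this
  have h2 : (((S \ G.neighborFinset w).card + (G.neighborFinset w ∩ S).card : ℕ) : ℝ) =
    ((S.card : ℕ) : ℝ) := by rw [this]
  push_cast at h2
  linarith

theorem missing (hdeg : ∀ v, (49 / 100 : ℝ) * n ≤ (G.neighborFinset v).card)
    {A B : Finset (Fin n)} (hA : (49 / 100 : ℝ) * n ≤ A.card)
    (hAB : ((A ∩ B).card : ℝ) ≤ (n : ℝ) / 100) {a : Fin n}
    (ha : ((G.neighborFinset a ∩ A).card : ℝ) ≤ (n : ℝ) / 100) :
    ((B \ G.neighborFinset a).card : ℝ) ≤ (4 / 100 : ℝ) * n := by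
  have h1 : ((A \ G.neighborFinset a).card : ℝ) = A.card - (G.neighborFinset a ∩ A).card :=
    card_compl_nbr
  have h2 : (((univ : Finset (Fin n)) \ G.neighborFinset a).card : ℝ) =
      (n : ℝ) - (G.neighborFinset a).card := by
    rw [card_compl_nbr]; simp
  have h3 : ((A \ G.neighborFinset a) ∪ ((B \ A) \ G.neighborFinset a)).card ≤
      ((univ : Finset (Fin n)) \ G.neighborFinset a).card := by
    apply Finset.card_le_card
    intro x hx
    simp only [mem_union, mem_sdiff, mem_univ, true_and] at hx ⊢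
    rcases hx with hx | hx
    · exact hx.2
    · exact hx.2
  rw [Finset.card_union_of_disjoint] at h3
  swap
  · rw [Finset.disjoint_left]
    intro x hx hx'
    simp only [mem_sdiff] at hx hx'
    exact hx'.1.2 hx.1
  have h4 : (B \ G.neighborFinset a).card ≤ (A ∩ B).card + ((B \ A) \ G.neighborFinset a).card := by
    refine (Finset.card_le_card ?_).trans (Finset.card_union_le _ _)
    intro x hx
    simp only [mem_union, mem_sdiff, mem_inter] at hx ⊢
    by_cases hxA : x ∈ A
    · exact Or.inl ⟨hxA, hx.1⟩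
    · exact Or.inr ⟨⟨hx.1, hxA⟩, hx.2⟩
  have h3' : ((A \ G.neighborFinset a).card : ℝ) + ((B \ A) \ G.neighborFinset a).card ≤
      (((univ : Finset (Fin n)) \ G.neighborFinset a).card : ℝ) := by exact_mod_cast h3
  have h4' : ((B \ G.neighborFinset a).card : ℝ) ≤
      (A ∩ B).card + ((B \ A) \ G.neighborFinset a).card := by exact_mod_cast h4
  have h5 := hdeg a
  linarith

theorem stepC (hfree : K122.Free G) {A B P : Finset (Fin n)} (hP : (P.card : ℝ) ≤ 20000)
    (hmiss : ∀ a ∈ A, a ∉ P → ((B \ G.neighborFinset a).card : ℝ) ≤ (4 / 100 : ℝ) * n)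
    {w : Fin n} (hw : 20001 < (G.neighborFinset w ∩ A).card) :
    ((G.neighborFinset w ∩ B).card : ℝ) < (8 / 100 : ℝ) * n + 2 := by
  have hP' : P.card ≤ 20000 := by exact_mod_cast hP
  have h1 : 1 < ((G.neighborFinset w ∩ A) \ P).card := by
    have := Finset.le_card_sdiff P (G.neighborFinset w ∩ A)
    omega
  obtain ⟨a, ha, a', ha', hne⟩ := Finset.one_lt_card.1 h1
  simp only [mem_sdiff, mem_inter, SimpleGraph.mem_neighborFinset] at ha ha'
  by_contra hcon
  push Not at hcon
  have m1 := hmiss a ha.1.2 ha.2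
  have m2 := hmiss a' ha'.1.2 ha'.2
  set Q := ((G.neighborFinset w ∩ B) \ (B \ G.neighborFinset a)) \ (B \ G.neighborFinset a')
    with hQ
  have h2 : (G.neighborFinset w ∩ B).card ≤
      Q.card + (B \ G.neighborFinset a).card + (B \ G.neighborFinset a').card := by
    have e1 := Finset.le_card_sdiff (B \ G.neighborFinset a) (G.neighborFinset w ∩ B)
    have e2 := Finset.le_card_sdiff (B \ G.neighborFinset a')
      ((G.neighborFinset w ∩ B) \ (B \ G.neighborFinset a))
    rw [← hQ] at e2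
    omega
  have h3 : ((G.neighborFinset w ∩ B).card : ℝ) ≤
      Q.card + (B \ G.neighborFinset a).card + (B \ G.neighborFinset a').card := by
    exact_mod_cast h2
  have h4 : (2 : ℝ) ≤ Q.card := by linarith
  have h5 : 1 < Q.card := by
    have : 2 ≤ Q.card := by exact_mod_cast h4
    omega
  obtain ⟨x, hx, y, hy, hxy⟩ := Finset.one_lt_card.1 h5
  simp only [hQ, mem_sdiff, mem_inter, SimpleGraph.mem_neighborFinset, not_and, not_not] at hx hy
  exact wheel ha.1.1 ha'.1.1 hx.1.1.1 hy.1.1.1 (hx.1.2 hx.1.1.2) (hy.1.2 hy.1.1.2)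
    (hx.2 hx.1.1.2) (hy.2 hy.1.1.2) hne hxy hfree

theorem side (hfree : K122.Free G) (hn : 1000000 ≤ n)
    (hdeg : ∀ v, (49 / 100 : ℝ) * n ≤ (G.neighborFinset v).card)
    {A : Finset (Fin n)} (hA : (49 / 100 : ℝ) * n - 20000 ≤ A.card)
    (hin : ∀ w ∈ A, ((G.neighborFinset w ∩ A).card : ℝ) ≤ (3 / 100 : ℝ) * n + 40001) :
    ∀ y ∈ A, ∀ x ∈ A, ∀ z ∈ A, G.Adj y x → G.Adj y z → x = z := by
  intro y hy x hx z hz hyx hyz
  by_contra hne
  have hn' : (1000000 : ℝ) ≤ n := by exact_mod_cast hn
  have key : ∀ w ∈ A, ((Aᶜ \ G.neighborFinset w).card : ℝ) ≤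
      (54 / 100 : ℝ) * n + 40001 - A.card := by
    intro w hw
    have h1 := hin w hw
    have h2 : ((A \ G.neighborFinset w).card : ℝ) = A.card - (G.neighborFinset w ∩ A).card :=
      card_compl_nbr
    have h3 : (((univ : Finset (Fin n)) \ G.neighborFinset w).card : ℝ) =
        (n : ℝ) - (G.neighborFinset w).card := by
      rw [card_compl_nbr]; simp
    have h4 : ((A \ G.neighborFinset w) ∪ (Aᶜ \ G.neighborFinset w)).card ≤
        ((univ : Finset (Fin n)) \ G.neighborFinset w).card := by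
      apply Finset.card_le_card
      intro x hx
      simp only [mem_union, mem_sdiff, mem_univ, true_and] at hx ⊢
      rcases hx with hx | hx
      · exact hx.2
      · exact hx.2
    rw [Finset.card_union_of_disjoint] at h4
    swap
    · rw [Finset.disjoint_left]
      intro x hx hx'
      simp only [mem_sdiff, mem_compl] at hx hx'
      exact hx'.1 hx.1
    have h4' : ((A \ G.neighborFinset w).card : ℝ) + (Aᶜ \ G.neighborFinset w).card ≤
        (((univ : Finset (Fin n)) \ G.neighborFinset w).card : ℝ) := by exact_mod_cast h4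
    have h5 := hdeg w
    linarith
  have hc : ((Aᶜ).card : ℝ) = n - A.card := by
    rw [Finset.card_compl, Fintype.card_fin, Nat.cast_sub]
    exact (Finset.card_le_univ A).trans (by simp)
  set Q := ((Aᶜ \ (Aᶜ \ G.neighborFinset x)) \ (Aᶜ \ G.neighborFinset y)) \
    (Aᶜ \ G.neighborFinset z) with hQ
  have h2 : (Aᶜ).card ≤ Q.card + (Aᶜ \ G.neighborFinset x).card +
      (Aᶜ \ G.neighborFinset y).card + (Aᶜ \ G.neighborFinset z).card := by
    have e1 := Finset.le_card_sdiff (Aᶜ \ G.neighborFinset x) Aᶜ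
    have e2 := Finset.le_card_sdiff (Aᶜ \ G.neighborFinset y) (Aᶜ \ (Aᶜ \ G.neighborFinset x))
    have e3 := Finset.le_card_sdiff (Aᶜ \ G.neighborFinset z)
      ((Aᶜ \ (Aᶜ \ G.neighborFinset x)) \ (Aᶜ \ G.neighborFinset y))
    rw [← hQ] at e3
    omega
  have h3 : ((Aᶜ).card : ℝ) ≤ Q.card + (Aᶜ \ G.neighborFinset x).card +
      (Aᶜ \ G.neighborFinset y).card + (Aᶜ \ G.neighborFinset z).card := by exact_mod_cast h2
  have k1 := key x hx
  have k2 := key y hy
  have k3 := key z hz
  have h4 : (2 : ℝ) ≤ Q.card := by linarith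
  have h5 : 1 < Q.card := by
    have : 2 ≤ Q.card := by exact_mod_cast h4
    omega
  obtain ⟨p, hp, q, hq, hpq⟩ := Finset.one_lt_card.1 h5
  simp only [hQ, mem_sdiff, mem_compl, SimpleGraph.mem_neighborFinset, not_and, not_not] at hp hq
  have p0 := hp.1.1.1
  have q0 := hq.1.1.1
  exact wheel hyx hyz (hp.1.2 p0) (hq.1.2 q0) (hp.1.1.2 p0) (hq.1.1.2 q0) (hp.2 p0) (hq.2 q0)
    hne hpq hfree

/-- A large `K_{1,2,2}`-free graph of minimum degree at least `49 n / 100` splits into two parts
each of which induces a matching. -/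
theorem structure_thm (hfree : K122.Free G) (hn : 1000000 ≤ n)
    (hdeg : ∀ v, (49 / 100 : ℝ) * n ≤ (G.neighborFinset v).card) :
    ∃ S : Finset (Fin n),
      (∀ y ∈ S, ∀ x ∈ S, ∀ z ∈ S, G.Adj y x → G.Adj y z → x = z) ∧
      (∀ y ∈ Sᶜ, ∀ x ∈ Sᶜ, ∀ z ∈ Sᶜ, G.Adj y x → G.Adj y z → x = z) := by
  have hn' : (1000000 : ℝ) ≤ n := by exact_mod_cast hn
  have hv0 : 0 < n := by omega
  set v : Fin n := ⟨0, hv0⟩
  -- choose `b`
  have hlt : (atyp G v).card < (G.neighborFinset v).card := by
    have h1 := atyp_card hfree hn v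
    have h2 := hdeg v
    have h3 : ((atyp G v).card : ℝ) < ((G.neighborFinset v).card : ℝ) := by linarith
    exact_mod_cast h3
  obtain ⟨b, hb, hb'⟩ := Finset.exists_mem_notMem_of_card_lt_card hlt
  set A := G.neighborFinset b with hA
  set B := G.neighborFinset v with hB
  have hAB : ((A ∩ B).card : ℝ) ≤ (n : ℝ) / 100 := by
    simp only [atyp, mem_filter, not_and, not_le] at hb'
    exact (hb' hb).le
  have hBA : ((B ∩ A).card : ℝ) ≤ (n : ℝ) / 100 := by rw [inter_comm]; exact hAB
  have hAc := hdeg b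
  have hBc := hdeg v
  rw [← hA] at hAc
  rw [← hB] at hBc
  have missA : ∀ a ∈ A, a ∉ atyp G b → ((B \ G.neighborFinset a).card : ℝ) ≤ (4 / 100 : ℝ) * n := by
    intro a ha ha'
    apply missing hdeg hAc hAB
    simp only [atyp, mem_filter, not_and, not_le] at ha'
    exact (ha' ha).le
  have missB : ∀ a ∈ B, a ∉ atyp G v → ((A \ G.neighborFinset a).card : ℝ) ≤ (4 / 100 : ℝ) * n := by
    intro a ha ha'
    apply missing hdeg hBc hBA
    simp only [atyp, mem_filter, not_and, not_le] at ha'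
    exact (ha' ha).le
  have pA := atyp_card hfree hn b
  have pB := atyp_card hfree hn v
  have hunion : ((A ∪ B).card : ℝ) ≥ (97 / 100 : ℝ) * n := by
    have h1 := Finset.card_union_add_card_inter A B
    have h2 : ((A ∪ B).card : ℝ) + (A ∩ B).card = A.card + B.card := by exact_mod_cast h1
    linarith
  have hout : (((A ∪ B)ᶜ).card : ℝ) ≤ (3 / 100 : ℝ) * n := by
    rw [Finset.card_compl, Fintype.card_fin, Nat.cast_sub]
    · linarith
    · exact (Finset.card_le_univ _).trans (by simp)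
  -- every vertex has few neighbours in `A` or few in `B`
  have few_or : ∀ w, (G.neighborFinset w ∩ A).card ≤ 20001 ∨ (G.neighborFinset w ∩ B).card ≤ 20001 := by
    intro w
    by_contra hcon
    push Not at hcon
    have c1 := stepC hfree pA missA hcon.1
    have c2 := stepC hfree pB missB hcon.2
    have h1 : (G.neighborFinset w).card ≤ (G.neighborFinset w ∩ A).card +
        (G.neighborFinset w ∩ B).card + ((A ∪ B)ᶜ).card := by
      have : G.neighborFinset w ⊆ ((G.neighborFinset w ∩ A) ∪ (G.neighborFinset w ∩ B)) ∪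
          (A ∪ B)ᶜ := by
        intro x hx
        simp only [mem_union, mem_inter, mem_compl]
        tauto
      refine (Finset.card_le_card this).trans ?_
      refine (Finset.card_union_le _ _).trans ?_
      have := Finset.card_union_le (G.neighborFinset w ∩ A) (G.neighborFinset w ∩ B)
      omega
    have h2 : ((G.neighborFinset w).card : ℝ) ≤ (G.neighborFinset w ∩ A).card +
        (G.neighborFinset w ∩ B).card + ((A ∪ B)ᶜ).card := by exact_mod_cast h1
    have h3 := hdeg w
    linarith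
  set S : Finset (Fin n) := univ.filter fun w => (G.neighborFinset w ∩ A).card ≤ 20001 with hS
  have hSc : ∀ w ∈ Sᶜ, (G.neighborFinset w ∩ B).card ≤ 20001 := by
    intro w hw
    simp only [hS, mem_compl, mem_filter, mem_univ, true_and] at hw
    exact (few_or w).resolve_left hw
  have many : ∀ {C : Finset (Fin n)} {a : Fin n}, (49 / 100 : ℝ) * n ≤ C.card →
      ((C \ G.neighborFinset a).card : ℝ) ≤ (4 / 100 : ℝ) * n →
      20001 < (G.neighborFinset a ∩ C).card := by
    intro C a h1 h2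
    rw [card_compl_nbr] at h2
    have : (20001 : ℝ) < ((G.neighborFinset a ∩ C).card : ℝ) := by linarith
    exact_mod_cast this
  have hSB : S ∩ B ⊆ atyp G v := by
    intro y hy
    simp only [hS, mem_inter, mem_filter, mem_univ, true_and] at hy
    by_contra hcon
    have := many hAc (missB y hy.2 hcon)
    omega
  have hSA : Sᶜ ∩ A ⊆ atyp G b := by
    intro y hy
    rw [mem_inter] at hy
    by_contra hcon
    have := many hBc (missA y hy.2 hcon)
    have h2 := hSc y hy.1
    omega
  have hSB' : ((S ∩ B).card : ℝ) ≤ 20000 := by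
    refine le_trans ?_ pB
    exact_mod_cast Finset.card_le_card hSB
  have hSA' : ((Sᶜ ∩ A).card : ℝ) ≤ 20000 := by
    refine le_trans ?_ pA
    exact_mod_cast Finset.card_le_card hSA
  have hScard : (49 / 100 : ℝ) * n - 20000 ≤ S.card := by
    have h1 : A.card ≤ S.card + (Sᶜ ∩ A).card := by
      refine (Finset.card_le_card ?_).trans (Finset.card_union_le _ _)
      intro x hx
      simp only [mem_union, mem_inter, mem_compl]
      tauto
    have h2 : (A.card : ℝ) ≤ S.card + (Sᶜ ∩ A).card := by exact_mod_cast h1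
    linarith
  have hSccard : (49 / 100 : ℝ) * n - 20000 ≤ Sᶜ.card := by
    have h1 : B.card ≤ Sᶜ.card + (S ∩ B).card := by
      refine (Finset.card_le_card ?_).trans (Finset.card_union_le _ _)
      intro x hx
      simp only [mem_union, mem_inter, mem_compl]
      tauto
    have h2 : (B.card : ℝ) ≤ Sᶜ.card + (S ∩ B).card := by exact_mod_cast h1
    linarith
  refine ⟨S, side hfree hn hdeg hScard ?_, side hfree hn hdeg hSccard ?_⟩
  · intro w hw
    have h0 : (G.neighborFinset w ∩ A).card ≤ 20001 := by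
      simpa only [hS, mem_filter, mem_univ, true_and] using hw
    have h1 : (G.neighborFinset w ∩ S).card ≤
        (G.neighborFinset w ∩ A).card + ((S ∩ B).card + ((A ∪ B)ᶜ).card) := by
      refine (Finset.card_le_card ?_).trans ((Finset.card_union_le (G.neighborFinset w ∩ A) _).trans
        (Nat.add_le_add_left (Finset.card_union_le (S ∩ B) ((A ∪ B)ᶜ)) _))
      intro x hx
      simp only [mem_union, mem_inter, mem_compl] at hx ⊢
      tauto
    have h2 : ((G.neighborFinset w ∩ S).card : ℝ) ≤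
        (G.neighborFinset w ∩ A).card + ((S ∩ B).card + ((A ∪ B)ᶜ).card) := by exact_mod_cast h1
    have h3 : ((G.neighborFinset w ∩ A).card : ℝ) ≤ 20001 := by exact_mod_cast h0
    linarith
  · intro w hw
    have h0 := hSc w hw
    have h1 : (G.neighborFinset w ∩ Sᶜ).card ≤
        (G.neighborFinset w ∩ B).card + ((Sᶜ ∩ A).card + ((A ∪ B)ᶜ).card) := by
      refine (Finset.card_le_card ?_).trans ((Finset.card_union_le (G.neighborFinset w ∩ B) _).trans
        (Nat.add_le_add_left (Finset.card_union_le (Sᶜ ∩ A) ((A ∪ B)ᶜ)) _))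
      intro x hx
      simp only [mem_union, mem_inter, mem_compl] at hx ⊢
      tauto
    have h2 : ((G.neighborFinset w ∩ Sᶜ).card : ℝ) ≤
        (G.neighborFinset w ∩ B).card + ((Sᶜ ∩ A).card + ((A ∪ B)ᶜ).card) := by exact_mod_cast h1
    have h3 : ((G.neighborFinset w ∩ B).card : ℝ) ≤ 20001 := by exact_mod_cast h0
    linarith

theorem pigeon (c : Fin 5 → Bool) : ∃ i j k : Fin 5, i ≠ j ∧ i ≠ k ∧ j ≠ k ∧ c i = c j ∧ c i = c k := by
  revert c
  decide

/-- If `c` is a 2-colouring of the vertices of `G'` such that no colour class contains a path with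
two edges, then `G'` is `K_{1,2,2}`-free. -/
theorem free_of_coloring {G' : SimpleGraph (Fin n)} (c : Fin n → Bool)
    (hc : ∀ y x z, G'.Adj y x → G'.Adj y z → c y = c x → c y = c z → x = z) : K122.Free G' := by
  rintro ⟨f⟩
  obtain ⟨i, j, k, hij, hik, hjk, h1, h2⟩ := pigeon (fun i => c (f i))
  have hinj : Function.Injective f := f.injective
  have hadj : ∀ a b, K122.Adj a b → G'.Adj (f a) (f b) := fun a b h => f.toHom.map_rel h
  rcases three i j k hij hik hjk with ⟨h, h'⟩ | ⟨h, h'⟩ | ⟨h, h'⟩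
  · exact hjk (hinj (hc _ _ _ (hadj _ _ h) (hadj _ _ h') h1 h2))
  · exact hik (hinj (hc _ _ _ (hadj _ _ h) (hadj _ _ h') h1.symm (h1.symm.trans h2)))
  · exact hij (hinj (hc _ _ _ (hadj _ _ h) (hadj _ _ h') h2.symm (h2.symm.trans h1)))

theorem cross (hmax : MaximalFree K122 G) {S : Finset (Fin n)}
    (h1 : ∀ y ∈ S, ∀ x ∈ S, ∀ z ∈ S, G.Adj y x → G.Adj y z → x = z)
    (h2 : ∀ y ∈ Sᶜ, ∀ x ∈ Sᶜ, ∀ z ∈ Sᶜ, G.Adj y x → G.Adj y z → x = z) :
    ∀ a ∈ S, ∀ b ∈ Sᶜ, G.Adj a b := by
  intro a ha b hb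
  by_contra hab
  have hne : a ≠ b := by
    rintro rfl
    exact (mem_compl.1 hb) ha
  apply hmax.2 a b hne hab
  apply free_of_coloring (fun w => decide (w ∈ S))
  have red : ∀ u w, (G ⊔ SimpleGraph.edge a b).Adj u w → (u ∈ S ↔ w ∈ S) → G.Adj u w := by
    intro u w h huw
    rw [SimpleGraph.sup_adj] at h
    rcases h with h | h
    · exact h
    · rw [SimpleGraph.edge_adj] at h
      rw [mem_compl] at hb
      rcases h.1 with ⟨rfl, rfl⟩ | ⟨rfl, rfl⟩ <;> tauto
  intro y x z hyx hyz e1 e2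
  simp only [decide_eq_decide] at e1 e2
  have k1 := red y x hyx e1
  have k2 := red y z hyz e2
  by_cases hy : y ∈ S
  · exact h1 y hy x (e1.1 hy) z (e2.1 hy) k1 k2
  · exact h2 y (mem_compl.2 hy) x (mem_compl.2 fun h => hy (e1.2 h)) z
      (mem_compl.2 fun h => hy (e2.2 h)) k1 k2

theorem vc_le_two (hmax : MaximalFree K122 G) (hn : 1000000 ≤ n)
    (hdeg : ∀ v, (49 / 100 : ℝ) * n ≤ (G.neighborFinset v).card) : vc G ≤ 2 := by
  obtain ⟨S, h1, h2⟩ := structure_thm hmax.1 hn hdeg
  have hcr := cross hmax h1 h2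
  unfold vc Finset.vcDim
  apply Finset.sup_le
  intro s hs
  rw [Finset.mem_shatterer] at hs
  by_contra hcard
  push Not at hcard
  obtain ⟨x, hx, y, hy, z, hz, hxy, hxz, hyz⟩ := Finset.two_lt_card.1 hcard
  have patt : ∀ t ⊆ s, ∃ w, ∀ u ∈ s, G.Adj w u ↔ u ∈ t := by
    intro t ht
    obtain ⟨N, hN, hNt⟩ := hs ht
    simp only [mem_image, mem_univ, true_and] at hN
    obtain ⟨w, rfl⟩ := hN
    refine ⟨w, fun u hu => ?_⟩
    rw [← hNt, mem_inter, SimpleGraph.mem_neighborFinset]
    tauto
  have hcr' : ∀ a ∈ S, ∀ b ∉ S, G.Adj b a := fun a ha b hb => (hcr a ha b (mem_compl.2 hb)).symm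
  -- the empty pattern
  obtain ⟨w, hw⟩ := patt ∅ (empty_subset _)
  obtain ⟨w', hw'⟩ := patt {x, y} (by
    intro a ha
    rcases mem_insert.1 ha with rfl | ha
    · exact hx
    · rw [mem_singleton.1 ha]; exact hy)
  have ex : G.Adj w' x := (hw' x hx).2 (by simp)
  have ey : G.Adj w' y := (hw' y hy).2 (by simp)
  have ez : ¬ G.Adj w' z := fun h => by
    have := (hw' z hz).1 h
    simp only [mem_insert, mem_singleton] at this
    rcases this with rfl | rfl
    · exact hxz rfl
    · exact hyz rfl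
  have emp : ∀ u ∈ s, ¬ G.Adj w u := fun u hu h => by
    have := (hw u hu).1 h
    simp at this
  have mixed : ∀ a ∈ s, ∀ b ∈ s, a ∈ S → b ∉ S → False := by
    intro a ha b hb haS hbS
    by_cases hwS : w ∈ S
    · exact emp b hb (hcr w hwS b (mem_compl.2 hbS))
    · exact emp a ha (hcr' a haS w hwS)
  by_cases hxS : x ∈ S
  · have hyS : y ∈ S := by
      by_contra h
      exact mixed x hx y hy hxS h
    have hzS : z ∈ S := by
      by_contra h
      exact mixed x hx z hz hxS h
    by_cases hwS : w' ∈ S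
    · exact hxy (h1 w' hwS x hxS y hyS ex ey)
    · exact ez (hcr' z hzS w' hwS)
  · have hyS : y ∉ S := fun h => mixed y hy x hx h hxS
    have hzS : z ∉ S := fun h => mixed z hz x hx h hxS
    by_cases hwS : w' ∈ S
    · exact ez (hcr w' hwS z (mem_compl.2 hzS))
    · exact hxy (h2 w' (mem_compl.2 hwS) x (mem_compl.2 hxS) y (mem_compl.2 hyS) ex ey)

theorem vc_le_card : vc G ≤ n := by
  unfold vc Finset.vcDim
  apply Finset.sup_le
  intro s _
  exact (Finset.card_le_univ s).trans (by simp)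

end basics

/-- The VC-threshold of `K_{1,2,2}` is at most `49/100`. -/
theorem deltaVC_le : deltaVC K122 ≤ 49 / 100 := by
  apply csInf_le ⟨0, fun α hα => hα.1⟩
  refine ⟨by norm_num, 1000000, ?_⟩
  intro n G hmax hdeg
  by_cases hn : 1000000 ≤ n
  · refine (vc_le_two hmax hn ?_).trans (by norm_num)
    intro v
    rw [SimpleGraph.card_neighborFinset_eq_degree]
    exact hdeg.trans (by exact_mod_cast G.minDegree_le_degree v)
  · exact vc_le_card.trans (by omega)

/-- Two halves with complete bipartite graph between them and a perfect matching in each. -/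
def ext (k : ℕ) : SimpleGraph (Fin (4 * k)) where
  Adj i j := i ≠ j ∧ (i.val % 2 ≠ j.val % 2 ∨ i.val / 4 = j.val / 4)
  symm := ⟨fun _ _ h => ⟨h.1.symm, h.2.imp Ne.symm Eq.symm⟩⟩
  loopless := ⟨fun _ h => h.1 rfl⟩

theorem ext_free (k : ℕ) : K122.Free (ext k) := by
  apply free_of_coloring (fun i => decide (i.val % 2 = 0))
  intro y x z hyx hyz h1 h2
  simp only [ext, decide_eq_decide] at hyx hyz h1 h2
  obtain ⟨a1, a2⟩ := hyx
  obtain ⟨b1, b2⟩ := hyz
  have a1' : y.val ≠ x.val := fun h => a1 (Fin.ext h)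
  have b1' : y.val ≠ z.val := fun h => b1 (Fin.ext h)
  apply Fin.ext
  omega

theorem ext_max (k : ℕ) : MaximalFree K122 (ext k) := by
  refine ⟨ext_free k, ?_⟩
  intro u v huv hnadj
  have huv' : u.val ≠ v.val := fun h => huv (Fin.ext h)
  have hu := u.isLt
  have hv := v.isLt
  have hpar : u.val % 2 = v.val % 2 ∧ u.val / 4 ≠ v.val / 4 := by
    constructor
    · by_contra h
      exact hnadj ⟨huv, Or.inl h⟩
    · intro h
      exact hnadj ⟨huv, Or.inr h⟩
  -- partner of `u` and two vertices of the other side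
  obtain ⟨u', hu1, hu2, hu3⟩ : ∃ u' : Fin (4 * k), u'.val % 2 = u.val % 2 ∧
      u'.val / 4 = u.val / 4 ∧ u'.val ≠ u.val := by
    by_cases h : u.val % 4 < 2
    · exact ⟨⟨u.val + 2, by omega⟩, by simp, by simp; omega, by simp⟩
    · exact ⟨⟨u.val - 2, by omega⟩, by simp; omega, by simp; omega, by simp; omega⟩
  obtain ⟨p, hp⟩ : ∃ p : Fin (4 * k), p.val = 4 * (u.val / 4) + (1 - u.val % 2) :=
    ⟨⟨4 * (u.val / 4) + (1 - u.val % 2), by omega⟩, rfl⟩
  obtain ⟨q, hq⟩ : ∃ q : Fin (4 * k), q.val = 4 * (u.val / 4) + (1 - u.val % 2) + 2 :=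
    ⟨⟨4 * (u.val / 4) + (1 - u.val % 2) + 2, by omega⟩, rfl⟩
  have old : ∀ a b : Fin (4 * k), (ext k).Adj a b → (ext k ⊔ SimpleGraph.edge u v).Adj a b :=
    fun a b h => (SimpleGraph.sup_adj _ _ _ _).2 (Or.inl h)
  have adjp : ∀ a b : Fin (4 * k), a.val % 2 ≠ b.val % 2 → (ext k).Adj a b := by
    intro a b h
    exact ⟨fun e => h (by rw [e]), Or.inl h⟩
  refine wheel (h := u) (x := v) (z := u') (p := p) (q := q) ?_ ?_ (old _ _ (adjp _ _ ?_))
    (old _ _ (adjp _ _ ?_)) (old _ _ (adjp _ _ ?_)) (old _ _ (adjp _ _ ?_))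
    (old _ _ (adjp _ _ ?_)) (old _ _ (adjp _ _ ?_)) ?_ ?_
  · rw [SimpleGraph.sup_adj, SimpleGraph.edge_adj]
    exact Or.inr ⟨Or.inl ⟨rfl, rfl⟩, huv⟩
  · exact old _ _ ⟨fun h => hu3 (by rw [h]), Or.inr hu2.symm⟩
  · omega
  · omega
  · omega
  · omega
  · omega
  · omega
  · intro h
    rw [h] at hpar
    omega
  · intro h
    have : p.val = q.val := by rw [h]
    omega

theorem ext_deg (k : ℕ) (v : Fin (4 * k)) : 2 * k ≤ (ext k).degree v := by
  rw [← SimpleGraph.card_neighborFinset_eq_degree]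
  have hsub : (univ.filter fun w : Fin (4 * k) => w.val % 2 ≠ v.val % 2) ⊆
      (ext k).neighborFinset v := by
    intro w hw
    simp only [mem_filter, mem_univ, true_and] at hw
    rw [SimpleGraph.mem_neighborFinset]
    exact ⟨fun e => hw (by rw [e]), Or.inl hw.symm⟩
  refine le_trans ?_ (Finset.card_le_card hsub)
  have hinj : Function.Injective (fun i : Fin (2 * k) =>
      (⟨2 * i.val + (1 - v.val % 2), by have := i.isLt; omega⟩ : Fin (4 * k))) := by
    intro i j hij
    simp only [Fin.mk.injEq] at hij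
    apply Fin.ext
    omega
  calc 2 * k = (univ.image (fun i : Fin (2 * k) =>
      (⟨2 * i.val + (1 - v.val % 2), by have := i.isLt; omega⟩ : Fin (4 * k)))).card := by
        rw [Finset.card_image_of_injective _ hinj]; simp
    _ ≤ _ := by
        apply Finset.card_le_card
        intro w hw
        simp only [mem_image, mem_univ, true_and] at hw
        obtain ⟨i, rfl⟩ := hw
        simp only [mem_filter, mem_univ, true_and]
        omega

theorem ext_blowup (k m : ℕ) (F : SimpleGraph (Fin m)) (h : IsBlowup (ext k) F) : 4 * k ≤ m := by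
  obtain ⟨π, -, hπ⟩ := h
  have hinj : Function.Injective π := by
    intro u v huv
    by_contra hne
    have hu := u.isLt
    have h1 : ¬ (ext k).Adj u v := by
      rw [hπ, huv]
      exact F.loopless.irrefl _
    have hpar : u.val % 2 = v.val % 2 ∧ u.val / 4 ≠ v.val / 4 := by
      constructor
      · by_contra h
        exact h1 ⟨hne, Or.inl h⟩
      · intro h
        exact h1 ⟨hne, Or.inr h⟩
    obtain ⟨u', hu1, hu2, hu3⟩ : ∃ u' : Fin (4 * k), u'.val % 2 = u.val % 2 ∧
        u'.val / 4 = u.val / 4 ∧ u'.val ≠ u.val := by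
      by_cases h : u.val % 4 < 2
      · exact ⟨⟨u.val + 2, by omega⟩, by simp, by simp; omega, by simp⟩
      · exact ⟨⟨u.val - 2, by omega⟩, by simp; omega, by simp; omega, by simp; omega⟩
    have h2 : (ext k).Adj u u' := ⟨fun h => hu3 (by rw [h]), Or.inr hu2.symm⟩
    rw [hπ, huv, ← hπ] at h2
    rcases h2.2 with h3 | h3 <;> omega
  have := Fintype.card_le_of_injective π hinj
  simpa using this

/-- The blowup threshold of `K_{1,2,2}` equals `1/2`. -/
theorem deltaB_eq : deltaB K122 = 1 / 2 := by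
  have key : ∀ α : ℝ, 1 / 2 < α → α ∈ {α : ℝ | 0 ≤ α ∧ ∃ C : ℕ, ∀ (n : ℕ)
      (G : SimpleGraph (Fin n)), MaximalFree K122 G → α * n ≤ G.minDegree →
        ∃ k ≤ C, ∃ F : SimpleGraph (Fin k), IsBlowup G F} := by
    intro α hα
    set c : ℝ := 2 * α - 1 with hc
    have hc0 : 0 < c := by linarith
    have hα0 : 0 < α := by linarith
    refine ⟨hα0.le, ⌈(1 / (α * c) + 1) / c⌉₊, ?_⟩
    intro n G hmax hdeg
    refine ⟨n, ?_, G, id, Function.surjective_id, fun u v => Iff.rfl⟩
    by_contra hcon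
    push Not at hcon
    have h1 : (1 / (α * c) + 1) / c < n := (Nat.le_ceil _).trans_lt (by exact_mod_cast hcon)
    have h2 : 1 / (α * c) + 1 < c * n := by
      rw [div_lt_iff₀ hc0] at h1
      linarith
    have h3 : 0 < 1 / (α * c) := by positivity
    have hn : 0 < n := by
      by_contra h0
      have : n = 0 := by omega
      rw [this] at h2
      simp at h2
      linarith [h3, h2, show (α * c)⁻¹ = 1 / (α * c) from (one_div _).symm]
    have hn' : (0 : ℝ) < n := by exact_mod_cast hn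
    have hd : ∀ v, α * n ≤ ((G.neighborFinset v).card : ℝ) := by
      intro v
      rw [SimpleGraph.card_neighborFinset_eq_degree]
      exact hdeg.trans (by exact_mod_cast G.minDegree_le_degree v)
    set h : Fin n := ⟨0, hn⟩
    have h4 := few hmax.1 h (c * n) (by linarith) (G.neighborFinset h) subset_rfl (by
      intro z _
      have e1 := Finset.card_union_add_card_inter (G.neighborFinset z) (G.neighborFinset h)
      have e2 : ((G.neighborFinset z ∪ G.neighborFinset h).card : ℝ) ≤ n := by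
        have := Finset.card_le_univ (G.neighborFinset z ∪ G.neighborFinset h)
        rw [Fintype.card_fin] at this
        exact_mod_cast this
      have e3 : ((G.neighborFinset z ∪ G.neighborFinset h).card : ℝ) +
          (G.neighborFinset z ∩ G.neighborFinset h).card =
          (G.neighborFinset z).card + (G.neighborFinset h).card := by exact_mod_cast e1
      have e4 := hd z
      have e5 := hd h
      rw [hc]
      linarith)
    have h5 := hd h
    have h6 : (0 : ℝ) < c * n * (c * n - 1) := by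
      apply mul_pos
      · positivity
      · linarith
    have h7 : α * n * (c * n * (c * n - 1)) ≤ (n : ℝ) ^ 2 :=
      (mul_le_mul_of_nonneg_right h5 h6.le).trans h4
    have h8 : α * c * (c * n - 1) ≤ 1 := by
      have : (n : ℝ) ^ 2 * (α * c * (c * n - 1)) ≤ (n : ℝ) ^ 2 * 1 := by
        calc (n : ℝ) ^ 2 * (α * c * (c * n - 1)) = α * n * (c * n * (c * n - 1)) := by ring
          _ ≤ (n : ℝ) ^ 2 * 1 := by rw [mul_one]; exact h7
      exact le_of_mul_le_mul_left this (by positivity)
    have h9 : α * c * (1 / (α * c)) = 1 := by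
      field_simp
    have h10 : α * c * (1 / (α * c)) < α * c * (c * n - 1) := by
      apply mul_lt_mul_of_pos_left
      · linarith
      · positivity
    linarith
  apply le_antisymm
  · apply le_of_forall_gt_imp_ge_of_dense
    intro α hα
    exact csInf_le ⟨0, fun α hα => hα.1⟩ (key α hα)
  · apply le_csInf ⟨1, key 1 (by norm_num)⟩
    rintro α ⟨-, C, hC⟩
    by_contra hlt
    push Not at hlt
    obtain ⟨k, hk, F, hF⟩ := hC (4 * (C + 1)) (ext (C + 1)) (ext_max _) (by
      have : Nonempty (Fin (4 * (C + 1))) := ⟨⟨0, by omega⟩⟩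
      obtain ⟨v, hv⟩ := (ext (C + 1)).exists_minimal_degree_vertex
      rw [hv]
      have h1 := ext_deg (C + 1) v
      have h2 : ((2 * (C + 1) : ℕ) : ℝ) ≤ ((ext (C + 1)).degree v : ℝ) := by exact_mod_cast h1
      push_cast at h2 ⊢
      have h3 : (0 : ℝ) ≤ C := Nat.cast_nonneg C
      nlinarith)
    have := ext_blowup _ _ F hF
    omega

/-- **The VC-dimension threshold and the blowup threshold differ.** For `H = K_{1,2,2}` the blowup
threshold is `1/2`, while the VC-dimension threshold is at most `49/100`. -/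
theorem result : deltaVC K122 < deltaB K122 ∧ deltaB K122 = 1 / 2 ∧ deltaVC K122 ≤ 49 / 100 := by
  refine ⟨?_, deltaB_eq, deltaVC_le⟩
  rw [deltaB_eq]
  exact lt_of_le_of_lt deltaVC_le (by norm_num)

end Pool.Agent.Results.MP_0aef5d_co.WheelCounterexample
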